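import Mathlib

/-!
Posets of finite width which are complete for directed and codirected sets: every finite subset
is fixed by a monotone self-map with finite range.
-/

namespace Pool.Agent.Helper39.Helly

open Filter Set

/-- All finite antichains have at most `w` elements. -/
def WidthLE (P : Type*) [LE P] (w : ℕ) : Prop :=
  ∀ s : Finset P, IsAntichain (· ≤ ·) (s : Set P) → s.card ≤ w

/-- Every nonempty directed set has a least upper bound. -/
def DirComplete (P : Type*) [Preorder P] : Prop :=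
  ∀ D : Set P, D.Nonempty → DirectedOn (· ≤ ·) D → ∃ c, IsLUB D c

theorem ultra_type {Q : Type*} [Preorder Q] {w : ℕ} (hw : WidthLE Q w) (V : Ultrafilter Q) :
    ∀ᶠ q in (V : Filter Q),
      (∀ᶠ y in (V : Filter Q), q ≤ y) ∨ (∀ᶠ y in (V : Filter Q), y ≤ q) := by
  classical
  by_contra hcon
  have hW : ∀ᶠ q in (V : Filter Q), (∀ᶠ y in (V : Filter Q), ¬ q ≤ y ∧ ¬ y ≤ q) := by
    have h1 := Ultrafilter.eventually_not.2 hcon
    filter_upwards [h1] with q hq
    rw [not_or] at hq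
    exact (Ultrafilter.eventually_not.2 hq.1).and (Ultrafilter.eventually_not.2 hq.2)
  have key : ∀ n : ℕ, ∃ s : Finset Q, s.card = n ∧ IsAntichain (· ≤ ·) (s : Set Q) ∧
      ∀ q ∈ s, ∀ᶠ y in (V : Filter Q), ¬ q ≤ y ∧ ¬ y ≤ q := by
    intro n
    induction n with
    | zero => exact ⟨∅, rfl, by simp, by simp⟩
    | succ n ih =>
      obtain ⟨s, hs, hanti, hev⟩ := ih
      have h2 : ∀ᶠ y in (V : Filter Q), ∀ q ∈ s, ¬ q ≤ y ∧ ¬ y ≤ q :=
        (Filter.eventually_all_finset s).2 hev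
      obtain ⟨y, hy1, hy2⟩ := (h2.and hW).exists
      have hys : y ∉ s := fun hmem => (hy1 y hmem).1 le_rfl
      refine ⟨insert y s, by rw [Finset.card_insert_of_notMem hys, hs], ?_, ?_⟩
      · rw [Finset.coe_insert, isAntichain_insert]
        refine ⟨hanti, fun b hb _ => ?_⟩
        exact ⟨(hy1 b hb).2, (hy1 b hb).1⟩
      · intro q hq
        rcases Finset.mem_insert.1 hq with rfl | hq
        · exact hy2
        · exact hev q hq
  obtain ⟨s, hs, hanti, -⟩ := key (w + 1)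
  have := hw s hanti
  omega

/-- If some directed set has no maximal element, then there is a nontrivial monotone map above
the identity which fixes a prescribed finite set. -/
theorem bump {Q : Type*} [PartialOrder Q] {w : ℕ} (hw : WidthLE Q w) (hc : DirComplete Q)
    (E : Set Q) (hE : E.Finite)
    (hnm : ∃ D : Set Q, D.Nonempty ∧ DirectedOn (· ≤ ·) D ∧ ∀ d ∈ D, ∃ d' ∈ D, ¬ d' ≤ d) :
    ∃ g : Q → Q, Monotone g ∧ (∀ x, x ≤ g x) ∧ (∀ e ∈ E, g e = e) ∧ ∃ x, g x ≠ x := by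
  classical
  set Lam : Set Q := {c | ∃ D : Set Q, D.Nonempty ∧ DirectedOn (· ≤ ·) D ∧
    (∀ d ∈ D, ∃ d' ∈ D, ¬ d' ≤ d) ∧ IsLUB D c} with hLam
  have hLne : Lam.Nonempty := by
    obtain ⟨D, h1, h2, h3⟩ := hnm
    obtain ⟨c, hcc⟩ := hc D h1 h2
    exact ⟨c, D, h1, h2, h3, hcc⟩
  obtain ⟨c₀, hc₀⟩ := hLne
  -- a maximal element of `Lam`
  obtain ⟨c, -, hcL⟩ : ∃ c, c₀ ≤ c ∧ Maximal (· ∈ Lam) c := by
    refine zorn_le_nonempty₀ Lam ?_ c₀ hc₀
    intro C hCL hC y hy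
    by_cases hmax : ∃ m ∈ C, ∀ z ∈ C, z ≤ m
    · obtain ⟨m, hm, hm2⟩ := hmax
      exact ⟨m, hCL hm, hm2⟩
    · push Not at hmax
      have hdir : DirectedOn (· ≤ ·) C := hC.directedOn
      obtain ⟨b, hb⟩ := hc C ⟨y, hy⟩ hdir
      exact ⟨b, ⟨C, ⟨y, hy⟩, hdir, hmax, hb⟩, fun z hz => hb.1 hz⟩
  obtain ⟨D, hDne, hDdir, hDnm, hDc⟩ := hcL.1
  -- the comparability claim
  have claim : ∃ x₀ ∈ D, ∀ y, x₀ ≤ y → y ≤ c ∨ c ≤ y := by
    by_contra hcon
    push Not at hcon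
    choose! Y hY using hcon
    have : Nonempty D := hDne.to_subtype
    have : IsDirected D (· ≤ ·) := ⟨fun a b => by
      obtain ⟨z, hz, h1, h2⟩ := hDdir a a.2 b b.2
      exact ⟨⟨z, hz⟩, h1, h2⟩⟩
    let U : Ultrafilter D := Ultrafilter.of atTop
    let V : Ultrafilter Q := U.map (fun x : D => Y x)
    have hV1 : ∀ x ∈ D, ∀ᶠ y in (V : Filter Q), x ≤ y := by
      intro x hx
      have : ∀ᶠ z : D in (U : Filter D), x ≤ Y z := by
        have h1 : ∀ᶠ z : D in (atTop : Filter D), (⟨x, hx⟩ : D) ≤ z := eventually_ge_atTop _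
        have h2 : ∀ᶠ z : D in (U : Filter D), (⟨x, hx⟩ : D) ≤ z :=
          (Ultrafilter.of_le _) h1
        filter_upwards [h2] with z hz
        exact le_trans hz (hY z z.2).1
      exact this
    have hV2 : ∀ᶠ y in (V : Filter Q), ¬ y ≤ c ∧ ¬ c ≤ y := by
      have : ∀ᶠ z : D in (U : Filter D), ¬ Y z ≤ c ∧ ¬ c ≤ Y z :=
        Filter.Eventually.of_forall fun z => (hY z z.2).2
      exact this
    have hV3 : ∀ᶠ q in (V : Filter Q), ∀ᶠ y in (V : Filter Q), q ≤ y := by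
      filter_upwards [ultra_type hw V, hV2] with q hq hq2
      rcases hq with hq | hq
      · exact hq
      · exfalso
        apply hq2.2
        refine hDc.2 ?_
        intro x hx
        obtain ⟨y, h1, h2⟩ := ((hV1 x hx).and hq).exists
        exact le_trans h1 h2
    set Z : Set Q := {y | (¬ y ≤ c ∧ ¬ c ≤ y) ∧ ∀ᶠ y' in (V : Filter Q), y ≤ y'} with hZ
    have hZV : ∀ᶠ y in (V : Filter Q), y ∈ Z := hV2.and hV3
    have hZne : Z.Nonempty := hZV.exists
    have hZdir : DirectedOn (· ≤ ·) Z := by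
      intro a ha b hb
      obtain ⟨z, ⟨hz1, hz2⟩, hz3⟩ := ((ha.2.and hb.2).and hZV).exists
      exact ⟨z, hz3, hz1, hz2⟩
    have hZx : ∀ x ∈ D, ∃ z ∈ Z, x ≤ z := by
      intro x hx
      obtain ⟨z, h1, h2⟩ := ((hV1 x hx).and hZV).exists
      exact ⟨z, h2, h1⟩
    have hZnm : ∀ d ∈ Z, ∃ d' ∈ Z, ¬ d' ≤ d := by
      intro d hd
      by_contra hcon2
      push Not at hcon2
      apply hd.1.2
      refine hDc.2 ?_
      intro x hx
      obtain ⟨z, hz, hxz⟩ := hZx x hx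
      exact le_trans hxz (hcon2 z hz)
    obtain ⟨y, hy⟩ := hc Z hZne hZdir
    have hcy : c ≤ y := by
      refine hDc.2 ?_
      intro x hx
      obtain ⟨z, hz, hxz⟩ := hZx x hx
      exact le_trans hxz (hy.1 hz)
    have hyL : y ∈ Lam := ⟨Z, hZne, hZdir, hZnm, hy⟩
    have hyc : y ≤ c := hcL.2 hyL hcy
    obtain ⟨z, hz⟩ := hZne
    exact hz.1.1 (le_trans (hy.1 hz) hyc)
  obtain ⟨x₀, hx₀, hcomp⟩ := claim
  -- choose `x₁` above `x₀` avoiding `E`
  have hx1 : ∃ x₁ ∈ D, x₀ ≤ x₁ ∧ ∀ e ∈ E, x₁ ≤ e → c ≤ e := by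
    refine Set.Finite.induction_on E hE ?_ ?_
    · exact ⟨x₀, hx₀, le_rfl, by simp⟩
    · rintro e S - - ⟨x₁, hx₁, h01, hS⟩
      by_cases hce : c ≤ e
      · refine ⟨x₁, hx₁, h01, ?_⟩
        intro e' he' h
        rcases he' with rfl | he'
        · exact hce
        · exact hS e' he' h
      · have : ∃ d ∈ D, ¬ d ≤ e := by
          by_contra hcon
          push Not at hcon
          exact hce (hDc.2 hcon)
        obtain ⟨d, hd, hde⟩ := this
        obtain ⟨x₂, hx₂, h12, hd2⟩ := hDdir x₁ hx₁ d hd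
        refine ⟨x₂, hx₂, le_trans h01 h12, ?_⟩
        intro e' he' h
        rcases he' with rfl | he'
        · exact absurd (le_trans hd2 h) hde
        · exact hS e' he' (le_trans h12 h)
  obtain ⟨x₁, hx₁, h01, hE1⟩ := hx1
  have hcx₁ : ¬ c ≤ x₁ := by
    intro h
    obtain ⟨d', hd', hnd⟩ := hDnm x₁ hx₁
    exact hnd (le_trans (hDc.1 hd') h)
  have hle : ∀ y, x₁ ≤ y → ¬ c ≤ y → y ≤ c := by
    intro y h1 h2
    rcases hcomp y (le_trans h01 h1) with h | h
    · exact h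
    · exact absurd h h2
  refine ⟨fun y => if x₁ ≤ y ∧ ¬ c ≤ y then c else y, ?_, ?_, ?_, x₁, ?_⟩
  · intro y z hyz
    by_cases hy : x₁ ≤ y ∧ ¬ c ≤ y
    · by_cases hz : c ≤ z
      · simp only [hy, hz]
        simp [hz]
      · have hz' : x₁ ≤ z ∧ ¬ c ≤ z := ⟨le_trans hy.1 hyz, hz⟩
        simp only [if_pos hy, if_pos hz', le_refl]
    · by_cases hz : x₁ ≤ z ∧ ¬ c ≤ z
      · simp only [if_neg hy, if_pos hz]
        exact le_trans hyz (hle z hz.1 hz.2)
      · simp only [if_neg hy, if_neg hz]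
        exact hyz
  · intro y
    by_cases hy : x₁ ≤ y ∧ ¬ c ≤ y
    · simp only [if_pos hy]
      exact hle y hy.1 hy.2
    · simp only [if_neg hy, le_refl]
  · intro e he
    have : ¬ (x₁ ≤ e ∧ ¬ c ≤ e) := fun h => h.2 (hE1 e he h.1)
    simp only [if_neg this]
  · have : x₁ ≤ x₁ ∧ ¬ c ≤ x₁ := ⟨le_rfl, hcx₁⟩
    simp only [if_pos this]
    intro h
    exact hcx₁ (le_of_eq h)

/-- A monotone closure operator fixing a finite set whose range has no infinite directed growth. -/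
theorem phase {P : Type*} [PartialOrder P] {w : ℕ} (hw : WidthLE P w) (hc : DirComplete P)
    (E : Set P) (hE : E.Finite) :
    ∃ r : P → P, Monotone r ∧ (∀ x, x ≤ r x) ∧ (∀ x, r (r x) = r x) ∧ (∀ e ∈ E, r e = e) ∧
      ∀ D : Set P, (∀ d ∈ D, r d = d) → D.Nonempty → DirectedOn (· ≤ ·) D →
        ∃ d ∈ D, ∀ d' ∈ D, d' ≤ d := by
  classical
  set S : Set (P → P) := {r | Monotone r ∧ (∀ x, x ≤ r x) ∧ ∀ e ∈ E, r e = e} with hS
  have hid : (id : P → P) ∈ S := ⟨monotone_id, fun x => le_rfl, fun e _ => rfl⟩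
  obtain ⟨r, -, hr⟩ : ∃ r, id ≤ r ∧ Maximal (· ∈ S) r := by
    refine zorn_le_nonempty₀ S ?_ id hid
    intro C hCS hC r₀ hr₀
    have hdir : ∀ x : P, DirectedOn (· ≤ ·) ((fun r : P → P => r x) '' C) := by
      intro x
      rintro _ ⟨a, ha, rfl⟩ _ ⟨b, hb, rfl⟩
      rcases hC.total ha hb with h | h
      · exact ⟨b x, ⟨b, hb, rfl⟩, h x, le_rfl⟩
      · exact ⟨a x, ⟨a, ha, rfl⟩, le_rfl, h x⟩
    choose R hR using fun x => hc ((fun r : P → P => r x) '' C) ⟨r₀ x, r₀, hr₀, rfl⟩ (hdir x)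
    refine ⟨R, ⟨?_, ?_, ?_⟩, ?_⟩
    · intro x y hxy
      refine (hR x).2 ?_
      rintro _ ⟨a, ha, rfl⟩
      exact le_trans ((hCS ha).1 hxy) ((hR y).1 ⟨a, ha, rfl⟩)
    · intro x
      exact le_trans ((hCS hr₀).2.1 x) ((hR x).1 ⟨r₀, hr₀, rfl⟩)
    · intro e he
      apply le_antisymm
      · refine (hR e).2 ?_
        rintro _ ⟨a, ha, rfl⟩
        exact le_of_eq ((hCS ha).2.2 e he)
      · have h1 := (hR e).1 ⟨r₀, hr₀, rfl⟩
        have h2 := (hCS hr₀).2.2 e he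
        simp only [h2] at h1
        exact h1
    · intro a ha x
      exact (hR x).1 ⟨a, ha, rfl⟩
  obtain ⟨hrm, hrid, hrE⟩ := hr.1
  -- every `s ∈ S` fixes the range of `r`
  have hfix : ∀ s ∈ S, ∀ x, s (r x) = r x := by
    intro s hs x
    have h1 : (s ∘ r) ∈ S := ⟨hs.1.comp hrm, fun x => le_trans (hrid x) (hs.2.1 _), fun e he => by
      simp only [Function.comp, hrE e he, hs.2.2 e he]⟩
    have h2 : r ≤ s ∘ r := fun x => hs.2.1 _
    have h3 := hr.2 h1 h2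
    exact le_antisymm (h3 x) (h2 x)
  refine ⟨r, hrm, hrid, hfix r hr.1, hrE, ?_⟩
  intro D hDr hDne hDdir
  by_contra hcon
  push Not at hcon
  -- work in the fixed-point poset
  let Q := {x : P // r x = x}
  have hwQ : WidthLE Q w := by
    intro s hs
    have h1 : IsAntichain (· ≤ ·) ((s.map ⟨Subtype.val, Subtype.val_injective⟩ : Finset P) : Set P) := by
      intro a ha b hb hab hle
      simp only [Finset.coe_map, Function.Embedding.coeFn_mk, Set.mem_image] at ha hb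
      obtain ⟨a', ha', rfl⟩ := ha
      obtain ⟨b', hb', rfl⟩ := hb
      exact hs ha' hb' (fun h => hab (by rw [h])) hle
    have h2 := hw _ h1
    rwa [Finset.card_map] at h2
  have hcQ : DirComplete Q := by
    intro D' hne hdir
    have hdir' : DirectedOn (· ≤ ·) (Subtype.val '' D') := by
      rintro _ ⟨a, ha, rfl⟩ _ ⟨b, hb, rfl⟩
      obtain ⟨z, hz, h1, h2⟩ := hdir a ha b hb
      exact ⟨z, ⟨z, hz, rfl⟩, h1, h2⟩
    obtain ⟨c, hcc⟩ := hc _ (hne.image _) hdir'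
    refine ⟨⟨r c, hfix r hr.1 c⟩, ?_, ?_⟩
    · intro d hd
      exact (le_trans (hcc.1 ⟨d, hd, rfl⟩) (hrid c) : d.1 ≤ r c)
    · intro u hu
      have h1 : c ≤ u.1 := by
        refine hcc.2 ?_
        rintro _ ⟨a, ha, rfl⟩
        exact hu ha
      have h2 := hrm h1
      rw [u.2] at h2
      exact h2
  obtain ⟨g, hgm, hgid, hgE, x, hx⟩ := bump hwQ hcQ {q : Q | q.1 ∈ E}
    (hE.preimage (Subtype.val_injective.injOn)) ⟨{q : Q | q.1 ∈ D}, by
      obtain ⟨d, hd⟩ := hDne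
      exact ⟨⟨d, hDr d hd⟩, hd⟩, by
      intro a ha b hb
      obtain ⟨z, hz, h1, h2⟩ := hDdir a.1 ha b.1 hb
      exact ⟨⟨z, hDr z hz⟩, hz, h1, h2⟩, by
      intro d hd
      obtain ⟨d', hd', h⟩ := hcon d.1 hd
      exact ⟨⟨d', hDr d' hd'⟩, hd', h⟩⟩
  let s : P → P := fun x => (g ⟨r x, hfix r hr.1 x⟩).1
  have hsS : s ∈ S := by
    refine ⟨?_, ?_, ?_⟩
    · intro a b hab
      exact hgm (show (⟨r a, _⟩ : Q) ≤ ⟨r b, _⟩ from hrm hab)
    · intro a
      exact le_trans (hrid a) (hgid ⟨r a, _⟩)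
    · intro e he
      have h1 : (⟨r e, hfix r hr.1 e⟩ : Q) = ⟨e, hrE e he⟩ := Subtype.ext (hrE e he)
      show (g ⟨r e, hfix r hr.1 e⟩).1 = e
      rw [h1, hgE ⟨e, hrE e he⟩ he]
  apply hx
  have h1 := hfix s hsS x.1
  rw [x.2] at h1
  have h2 : (⟨r x.1, hfix r hr.1 x.1⟩ : Q) = x := Subtype.ext x.2
  have h3 : s x.1 = (g x).1 := by
    show (g ⟨r x.1, hfix r hr.1 x.1⟩).1 = (g x).1
    rw [h2]
  rw [h3] at h1
  exact Subtype.ext h1

theorem widthLE_dual {P : Type*} [PartialOrder P] {w : ℕ} (hw : WidthLE P w) :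
    WidthLE Pᵒᵈ w := by
  intro s hs
  have h1 : IsAntichain (· ≤ ·) ((s.map OrderDual.ofDual.toEmbedding : Finset P) : Set P) := ?_
  · have h2 := hw _ h1
    rwa [Finset.card_map] at h2
  intro a ha b hb hab hle
  simp only [Finset.coe_map, Equiv.coe_toEmbedding, Set.mem_image] at ha hb
  obtain ⟨a', ha', rfl⟩ := ha
  obtain ⟨b', hb', rfl⟩ := hb
  exact hs hb' ha' (fun h => hab (by rw [h])) hle

theorem widthLE_subtype {P : Type*} [PartialOrder P] {w : ℕ} (hw : WidthLE P w)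
    (p : P → Prop) : WidthLE {x // p x} w := by
  intro s hs
  have h1 : IsAntichain (· ≤ ·)
      ((s.map ⟨Subtype.val, Subtype.val_injective⟩ : Finset P) : Set P) := by
    intro a ha b hb hab hle
    simp only [Finset.coe_map, Function.Embedding.coeFn_mk, Set.mem_image] at ha hb
    obtain ⟨a', ha', rfl⟩ := ha
    obtain ⟨b', hb', rfl⟩ := hb
    exact hs ha' hb' (fun h => hab (by rw [h])) hle
  have h2 := hw _ h1
  rwa [Finset.card_map] at h2

/-- Every nonempty codirected set has a greatest lower bound. -/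
def CodirComplete (P : Type*) [Preorder P] : Prop :=
  ∀ D : Set P, D.Nonempty → DirectedOn (· ≥ ·) D → ∃ c, IsGLB D c

/-- In a poset of finite width, complete for directed and codirected sets, every finite set is
fixed by a monotone self-map with finite range. -/
theorem finite_image {P : Type*} [PartialOrder P] {w : ℕ} (hw : WidthLE P w)
    (hc : DirComplete P) (hc' : CodirComplete P) (E : Set P) (hE : E.Finite) :
    ∃ f : P → P, Monotone f ∧ (∀ e ∈ E, f e = e) ∧ (range f).Finite := by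
  classical
  obtain ⟨r, hrm, hrid, hrr, hrE, hrD⟩ := phase hw hc E hE
  let Q := {x : P // r x = x}
  have hwQ : WidthLE Qᵒᵈ w := widthLE_dual (widthLE_subtype hw _)
  have hcQ : DirComplete Qᵒᵈ := by
    intro D hne hdir
    let D' : Set P := {x : P | ∃ q : Q, q.1 = x ∧ OrderDual.toDual q ∈ D}
    have hne' : D'.Nonempty := by
      obtain ⟨d, hd⟩ := hne
      exact ⟨(OrderDual.ofDual d).1, OrderDual.ofDual d, rfl, hd⟩
    have hdir' : DirectedOn (· ≥ ·) D' := by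
      rintro _ ⟨a, rfl, ha⟩ _ ⟨b, rfl, hb⟩
      obtain ⟨z, hz, h1, h2⟩ := hdir _ ha _ hb
      exact ⟨(OrderDual.ofDual z).1, ⟨OrderDual.ofDual z, rfl, hz⟩, h1, h2⟩
    obtain ⟨c, hcc⟩ := hc' D' hne' hdir'
    have hrc : r c = c := by
      apply le_antisymm _ (hrid c)
      refine hcc.2 ?_
      rintro _ ⟨a, rfl, ha⟩
      have h1 : c ≤ a.1 := hcc.1 ⟨a, rfl, ha⟩
      have h2 := hrm h1
      rwa [a.2] at h2
    refine ⟨OrderDual.toDual ⟨c, hrc⟩, ?_, ?_⟩
    · intro d hd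
      have h1 : c ≤ (OrderDual.ofDual d).1 := hcc.1 ⟨OrderDual.ofDual d, rfl, hd⟩
      exact h1
    · intro u hu
      have h1 : (OrderDual.ofDual u).1 ≤ c := by
        refine hcc.2 ?_
        rintro _ ⟨a, rfl, ha⟩
        exact hu ha
      exact h1
  obtain ⟨s, hsm, hsid, hss, hsE, hsD⟩ := phase hwQ hcQ {q : Qᵒᵈ | (OrderDual.ofDual q).1 ∈ E}
    (hE.preimage (f := fun q : Qᵒᵈ => (OrderDual.ofDual q).1)
      (fun a _ b _ h => by exact Subtype.val_injective h))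
  let t : Q → Q := fun q => OrderDual.ofDual (s (OrderDual.toDual q))
  have htm : Monotone t := fun a b hab => hsm (show (OrderDual.toDual b) ≤ OrderDual.toDual a from hab)
  have htE : ∀ q : Q, q.1 ∈ E → t q = q := fun q hq => hsE (OrderDual.toDual q) hq
  have htt : ∀ q, t (t q) = t q := fun q => hss _
  -- finiteness of the range of `t`
  have hfin : (range t).Finite := by
    by_contra hinf
    have hinf' : (range t).Infinite := hinf
    have : (cofinite ⊓ 𝓟 (range t)).NeBot := hinf'.cofinite_inf_principal_neBot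
    let V : Ultrafilter Q := Ultrafilter.of (cofinite ⊓ 𝓟 (range t))
    have hVle : (V : Filter Q) ≤ cofinite ⊓ 𝓟 (range t) := Ultrafilter.of_le _
    have hV1 : ∀ᶠ q in (V : Filter Q), t q = q := by
      have h1 : ∀ᶠ q in (V : Filter Q), q ∈ range t :=
        (hVle.trans inf_le_right) (mem_principal_self _)
      filter_upwards [h1] with q hq
      obtain ⟨q', rfl⟩ := hq
      exact htt q'
    have hV2 : ∀ m : Q, ∀ᶠ q in (V : Filter Q), q ≠ m := by
      intro m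
      have h1 : ∀ᶠ q in (cofinite : Filter Q), q ≠ m := by
        simp [Filter.eventually_cofinite]
      exact (hVle.trans inf_le_left) h1
    have hV3 := ultra_type (widthLE_subtype hw (fun x => r x = x)) V
    have hV4 : (∀ᶠ q in (V : Filter Q), ∀ᶠ y in (V : Filter Q), q ≤ y) ∨
        (∀ᶠ q in (V : Filter Q), ∀ᶠ y in (V : Filter Q), y ≤ q) :=
      Ultrafilter.eventually_or.1 hV3
    rcases hV4 with hV4 | hV4
    · let Z : Set P := {x | ∃ q : Q, q.1 = x ∧ ∀ᶠ y in (V : Filter Q), q ≤ y}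
      obtain ⟨m, hm, hmax⟩ := hrD Z (by rintro _ ⟨q, rfl, -⟩; exact q.2)
        (by obtain ⟨q, hq⟩ := hV4.exists; exact ⟨q.1, q, rfl, hq⟩)
        (by
          rintro _ ⟨a, rfl, ha⟩ _ ⟨b, rfl, hb⟩
          obtain ⟨z, ⟨h1, h2⟩, h3⟩ := ((ha.and hb).and hV4).exists
          exact ⟨z.1, ⟨z, rfl, h3⟩, h1, h2⟩)
      obtain ⟨q, rfl, hq⟩ := hm
      obtain ⟨y, ⟨h1, h2⟩, h3⟩ := ((hq.and hV4).and (hV2 q)).exists
      exact h3 (le_antisymm (hmax y.1 ⟨y, rfl, h2⟩) h1)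
    · let Z : Set Qᵒᵈ := {x | t (OrderDual.ofDual x) = OrderDual.ofDual x ∧
        ∀ᶠ y in (V : Filter Q), y ≤ OrderDual.ofDual x}
      obtain ⟨m, hm, hmax⟩ := hsD Z (fun d hd => hd.1)
        (by obtain ⟨q, hq⟩ := (hV1.and hV4).exists; exact ⟨OrderDual.toDual q, hq⟩)
        (by
          intro a ha b hb
          obtain ⟨z, ⟨h1, h2⟩, h3⟩ := ((ha.2.and hb.2).and (hV1.and hV4)).exists
          exact ⟨OrderDual.toDual z, h3, h1, h2⟩)
      obtain ⟨y, ⟨h1, h2⟩, h3⟩ := ((hm.2.and (hV1.and hV4)).and (hV2 (OrderDual.ofDual m))).exists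
      have h4 := hmax (OrderDual.toDual y) h2
      exact h3 (le_antisymm h1 h4)
  refine ⟨fun x => (t ⟨r x, hrr x⟩).1, ?_, ?_, ?_⟩
  · intro x y hxy
    exact htm (show (⟨r x, hrr x⟩ : Q) ≤ ⟨r y, hrr y⟩ from hrm hxy)
  · intro e he
    have h1 : (⟨r e, hrr e⟩ : Q) = ⟨e, hrE e he⟩ := Subtype.ext (hrE e he)
    show (t ⟨r e, hrr e⟩).1 = e
    rw [h1, htE _ he]
  · refine (hfin.image Subtype.val).subset ?_
    rintro _ ⟨x, rfl⟩
    exact ⟨_, ⟨_, rfl⟩, rfl⟩

end Pool.Agent.Helper39.Helly
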