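import Pool.Agent.Helper39.Helly.Ultra

/-!
Every finite subset of a poset of finite width is contained in a finite order retract.
-/

namespace Pool.Agent.Helper39.Helly

open Filter Set

variable {X : Type*} [PartialOrder X]

/-- `V` is an ascending ultrafilter. -/
def Asc (V : UX X) : Prop := ∀ᶠ q in (V.uf : Filter X), ∀ᶠ y in (V.uf : Filter X), q ≤ y

/-- `V` is a descending ultrafilter. -/
def Desc (V : UX X) : Prop := ∀ᶠ q in (V.uf : Filter X), ∀ᶠ y in (V.uf : Filter X), y ≤ q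

theorem asc_or_desc {w : ℕ} (hw : WidthLE X w) (V : UX X) : Asc V ∨ Desc V :=
  Ultrafilter.eventually_or.1 (ultra_type hw V.uf)

/-- The ideal of an ultrafilter. -/
def idl (V : UX X) : Set X := {q | ∀ᶠ y in (V.uf : Filter X), q ≤ y}

/-- The (order) filter of an ultrafilter. -/
def flt (V : UX X) : Set X := {q | ∀ᶠ y in (V.uf : Filter X), y ≤ q}

theorem mem_idl {V : UX X} {q : X} : q ∈ idl V ↔ UX.pt q ≤ V := UX.pt_le_iff.symm

theorem mem_flt {V : UX X} {q : X} : q ∈ flt V ↔ V ≤ UX.pt q := UX.le_pt_iff.symm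

theorem idl_mono {U V : UX X} (h : U ≤ V) : idl U ⊆ idl V := fun _ hq =>
  mem_idl.2 (le_trans (mem_idl.1 hq) h)

theorem flt_anti {U V : UX X} (h : U ≤ V) : flt V ⊆ flt U := fun _ hq =>
  mem_flt.2 (le_trans h (mem_flt.1 hq))

theorem idl_directed {V : UX X} (h : Asc V) : DirectedOn (· ≤ ·) (idl V) := by
  intro a ha b hb
  have ha' : ∀ᶠ y in (V.uf : Filter X), a ≤ y := ha
  have hb' : ∀ᶠ y in (V.uf : Filter X), b ≤ y := hb
  obtain ⟨z, ⟨h1, h2⟩, h3⟩ := ((ha'.and hb').and h).exists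
  exact ⟨z, h3, h1, h2⟩

theorem flt_directed {V : UX X} (h : Desc V) : DirectedOn (· ≥ ·) (flt V) := by
  intro a ha b hb
  have ha' : ∀ᶠ y in (V.uf : Filter X), y ≤ a := ha
  have hb' : ∀ᶠ y in (V.uf : Filter X), y ≤ b := hb
  obtain ⟨z, ⟨h1, h2⟩, h3⟩ := ((ha'.and hb').and h).exists
  exact ⟨z, h3, h1, h2⟩

theorem idl_nonempty {V : UX X} (h : Asc V) : (idl V).Nonempty := h.exists

theorem flt_nonempty {V : UX X} (h : Desc V) : (flt V).Nonempty := h.exists

/-- If `a` is in the ideal of `U`, `b` in the filter of `V` and `U ≤ V` then `a ≤ b`. -/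
theorem idl_le_flt {U V : UX X} (h : U ≤ V) {a b : X} (ha : a ∈ idl U) (hb : b ∈ flt V) :
    a ≤ b :=
  UX.pt_le_pt.1 (le_trans (mem_idl.1 ha) (le_trans h (mem_flt.1 hb)))

/-- Interpolation between a descending and an ascending ultrafilter. -/
theorem exists_between {U V : UX X} (h : U ≤ V) (hU : Desc U) (hV : Asc V) :
    ∃ z, z ∈ flt U ∧ z ∈ idl V := by
  have h1 : flt U ∈ U.uf := hU
  have h2 := h _ h1
  obtain ⟨y, ⟨a, ha, hay⟩, hy⟩ := V.uf.neBot.nonempty_of_mem (inter_mem h2 hV)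
  refine ⟨y, ?_, hy⟩
  have ha' : ∀ᶠ z in (U.uf : Filter X), z ≤ a := ha
  show ∀ᶠ z in (U.uf : Filter X), z ≤ y
  filter_upwards [ha'] with z hz using hz.trans hay

theorem exists_finite_range {w : ℕ} (hw : WidthLE X w) (E : Set X) (hE : E.Finite) :
    ∃ f : X → X, Monotone f ∧ (∀ e ∈ E, f e = e) ∧ (range f).Finite := by
  classical
  rcases isEmpty_or_nonempty X with hX | hX
  · exact ⟨id, monotone_id, fun e _ => rfl, Set.toFinite _⟩
  obtain ⟨F, hFm, hFE, hFfin⟩ := finite_image (widthLE_PX hw) dirComplete_PX codirComplete_PX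
    ((fun x : X => cls (UX.pt x)) '' E) (hE.image _)
  set R : Finset (PX X) := hFfin.toFinset with hR
  have hmemR : ∀ p, F p ∈ R := fun p => by simp [hR]
  -- interpolating points
  have hz : ∀ u v : PX X, ∃ z : X, (u ≤ v → Desc (rep u) → Asc (rep v) →
      z ∈ flt (rep u) ∧ z ∈ idl (rep v)) := by
    intro u v
    by_cases h : u ≤ v ∧ Desc (rep u) ∧ Asc (rep v)
    · obtain ⟨z, hz⟩ := exists_between (rep_le_rep.2 h.1) h.2.1 h.2.2
      exact ⟨z, fun _ _ _ => hz⟩
    · exact ⟨Classical.arbitrary X, fun h1 h2 h3 => absurd ⟨h1, h2, h3⟩ h⟩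
  choose z hz using hz
  have hdesc : ∀ v ∈ R.filter (fun v => ¬ Asc (rep v)), Desc (rep v) := by
    intro v hv
    rcases asc_or_desc hw (rep v) with h | h
    · exact absurd h (Finset.mem_filter.1 hv).2
    · exact h
  have hasc : ∀ v ∈ R.filter (fun v => Asc (rep v)), Asc (rep v) := by
    intro v hv
    exact (Finset.mem_filter.1 hv).2
  set Ra := R.filter (fun v => Asc (rep v)) with hRa
  set Rd := R.filter (fun v => ¬ Asc (rep v)) with hRd
  obtain ⟨a, ha1, ha2, ha3⟩ := approx (fun v : PX X => idl (rep v))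
    (fun v => {x | ∃ u ∈ Rd, u ≤ v ∧ z u v = x} ∪ {e | e ∈ E ∧ cls (UX.pt e) = v}) Ra
    (fun v hv => idl_nonempty (hasc v hv))
    (fun v hv => idl_directed (hasc v hv))
    (fun u _ v _ huv => idl_mono (rep_le_rep.2 huv))
    (fun v _ => by
      refine Set.Finite.union ?_ (hE.subset fun e he => he.1)
      refine (Rd.finite_toSet.image (fun u => z u v)).subset ?_
      rintro x ⟨u, hu, -, rfl⟩
      exact ⟨u, hu, rfl⟩)
    (by
      rintro v hv x (⟨u, hu, huv, rfl⟩ | ⟨he, rfl⟩)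
      · exact (hz u v huv (hdesc u hu) (hasc v hv)).2
      · exact mem_idl.2 (cls_le.1 le_rfl))
  obtain ⟨b, hb1, hb2, hb3⟩ := approx (ρ := (PX X)ᵒᵈ) (Y := Xᵒᵈ)
    (fun v : (PX X)ᵒᵈ => OrderDual.ofDual ⁻¹' (flt (rep (OrderDual.ofDual v))))
    (fun v => {x | ∃ u ∈ Ra, OrderDual.ofDual v ≤ u ∧
      z (OrderDual.ofDual v) u = OrderDual.ofDual x})
    (Rd.map OrderDual.toDual.toEmbedding)
    (by
      intro v hv
      obtain ⟨u, hu, rfl⟩ := Finset.mem_map.1 hv
      obtain ⟨q, hq⟩ := flt_nonempty (X := X) (hdesc u hu)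
      exact ⟨OrderDual.toDual q, hq⟩)
    (by
      intro v hv
      obtain ⟨u, hu, rfl⟩ := Finset.mem_map.1 hv
      intro x hx y hy
      obtain ⟨q, hq, h1, h2⟩ := flt_directed (X := X) (hdesc u hu)
        (OrderDual.ofDual x) hx (OrderDual.ofDual y) hy
      exact ⟨OrderDual.toDual q, hq, h1, h2⟩)
    (fun u _ v _ huv x hx => flt_anti (X := X)
      (rep_le_rep.2 (show OrderDual.ofDual v ≤ OrderDual.ofDual u from huv)) hx)
    (by
      intro v _
      refine (Ra.finite_toSet.image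
        (fun u => OrderDual.toDual (z (OrderDual.ofDual v) u))).subset ?_
      rintro x ⟨u, hu, -, hx⟩
      exact ⟨u, hu, by simp [hx]⟩)
    (by
      rintro v hv x ⟨u, hu, hvu, hx⟩
      obtain ⟨v', hv', rfl⟩ := Finset.mem_map.1 hv
      show OrderDual.ofDual x ∈ flt _
      rw [← hx]
      exact (hz _ u hvu (hdesc v' hv') (hasc u hu)).1)
  let g : PX X → X := fun v => if Asc (rep v) then a v else OrderDual.ofDual (b (OrderDual.toDual v))
  have hg : ∀ u ∈ R, ∀ v ∈ R, u ≤ v → g u ≤ g v := by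
    intro u hu v hv huv
    by_cases hua : Asc (rep u)
    · have hu' : u ∈ Ra := Finset.mem_filter.2 ⟨hu, hua⟩
      by_cases hva : Asc (rep v)
      · have hv' : v ∈ Ra := Finset.mem_filter.2 ⟨hv, hva⟩
        simp only [g, if_pos hua, if_pos hva]
        exact ha3 u hu' v hv' huv
      · have hv' : v ∈ Rd := Finset.mem_filter.2 ⟨hv, hva⟩
        simp only [g, if_pos hua, if_neg hva]
        exact idl_le_flt (rep_le_rep.2 huv) (ha1 u hu')
          (hb1 (OrderDual.toDual v) (Finset.mem_map.2 ⟨v, hv', rfl⟩))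
    · have hu' : u ∈ Rd := Finset.mem_filter.2 ⟨hu, hua⟩
      by_cases hva : Asc (rep v)
      · have hv' : v ∈ Ra := Finset.mem_filter.2 ⟨hv, hva⟩
        simp only [g, if_neg hua, if_pos hva]
        have h1 : z u v ≤ a v := ha2 v hv' _ (Or.inl ⟨u, hu', huv, rfl⟩)
        have h2 := hb2 (OrderDual.toDual u) (Finset.mem_map.2 ⟨u, hu', rfl⟩)
          (OrderDual.toDual (z u v)) ⟨v, hv', huv, rfl⟩
        have h3 : OrderDual.ofDual (b (OrderDual.toDual u)) ≤ z u v := h2
        exact le_trans h3 h1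
      · have hv' : v ∈ Rd := Finset.mem_filter.2 ⟨hv, hva⟩
        simp only [g, if_neg hua, if_neg hva]
        exact hb3 (OrderDual.toDual v) (Finset.mem_map.2 ⟨v, hv', rfl⟩)
          (OrderDual.toDual u) (Finset.mem_map.2 ⟨u, hu', rfl⟩) huv
  refine ⟨fun x => g (F (cls (UX.pt x))), ?_, ?_, ?_⟩
  · intro x y hxy
    exact hg _ (hmemR _) _ (hmemR _) (hFm (cls_le_cls.2 (UX.pt_le_pt.2 hxy)))
  · intro e he
    have h1 : F (cls (UX.pt e)) = cls (UX.pt e) := hFE _ ⟨e, he, rfl⟩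
    show g (F (cls (UX.pt e))) = e
    have hR' : cls (UX.pt e) ∈ R := by
      have := hmemR (cls (UX.pt e))
      rwa [h1] at this
    rw [h1]
    have hle1 : UX.pt e ≤ rep (cls (UX.pt e)) := cls_le.1 le_rfl
    have hle2 : rep (cls (UX.pt e)) ≤ UX.pt e := le_cls.1 le_rfl
    have hA : Asc (rep (cls (UX.pt e))) := by
      have h2 := UX.pt_le_iff.1 hle1
      have h3 := UX.le_pt_iff.1 hle2
      show ∀ᶠ q in _, ∀ᶠ y in _, q ≤ y
      filter_upwards [h3] with q hq
      filter_upwards [h2] with y hy using hq.trans hy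
    have hRa' : cls (UX.pt e) ∈ Ra := Finset.mem_filter.2 ⟨hR', hA⟩
    simp only [g, if_pos hA]
    apply le_antisymm
    · have h4 := ha1 _ hRa'
      exact UX.pt_le_pt.1 (le_trans (mem_idl.1 h4) hle2)
    · exact ha2 _ hRa' e (Or.inr ⟨he, rfl⟩)
  · refine ((R.finite_toSet).image g).subset ?_
    rintro _ ⟨x, rfl⟩
    exact ⟨_, hmemR _, rfl⟩

/-- An iterate of a self-map with finite range is idempotent. -/
theorem exists_idempotent_iterate {Y : Type*} (f : Y → Y) (hf : (range f).Finite) :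
    ∃ n : ℕ, 0 < n ∧ ∀ x, f^[n] (f^[n] x) = f^[n] x := by
  classical
  have hfin : Finite (range f) := hf.to_subtype
  let φ : range f → range f := fun y => ⟨f y.1, y.1, rfl⟩
  have hφ : ∀ n (y : range f), (φ^[n] y).1 = f^[n] y.1 := by
    intro n
    induction n with
    | zero => intro y; rfl
    | succ n ih =>
      intro y
      rw [Function.iterate_succ_apply, Function.iterate_succ_apply, ih]
  obtain ⟨i, j, hij, heq⟩ := Finite.exists_ne_map_eq_of_infinite (fun n : ℕ => φ^[n])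
  wlog hlt : i < j generalizing i j
  · exact this j i hij.symm heq.symm (lt_of_le_of_ne (not_lt.1 hlt) hij.symm)
  obtain ⟨p, rfl⟩ : ∃ p, j = i + p := ⟨j - i, by omega⟩
  have hp : 0 < p := by omega
  have heq' : φ^[i] = φ^[i + p] := heq
  have hper : ∀ m, i ≤ m → ∀ k, φ^[m + k * p] = φ^[m] := by
    intro m hm k
    induction k with
    | zero => simp
    | succ k ih =>
      obtain ⟨l, rfl⟩ : ∃ l, m = i + l := ⟨m - i, by omega⟩
      have h1 : i + l + (k + 1) * p = (l + k * p) + (i + p) := by ring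
      have h2 : i + l + k * p = (l + k * p) + i := by ring
      rw [h1, Function.iterate_add, ← heq', ← Function.iterate_add, ← h2, ih]
  have hfper : ∀ m, i + 1 ≤ m → ∀ k x, f^[m + k * p] x = f^[m] x := by
    intro m hm k x
    obtain ⟨l, rfl⟩ : ∃ l, m = l + 1 := ⟨m - 1, by omega⟩
    have h1 : l + 1 + k * p = (l + k * p) + 1 := by ring
    rw [h1, Function.iterate_succ_apply, Function.iterate_succ_apply]
    have h2 := congrFun (hper l (by omega) k) ⟨f x, x, rfl⟩
    have h3 := congrArg Subtype.val h2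
    rw [hφ, hφ] at h3
    exact h3
  refine ⟨(i + 1) * p, Nat.mul_pos (by omega) hp, fun x => ?_⟩
  rw [← Function.iterate_add_apply]
  exact hfper ((i + 1) * p) (Nat.le_mul_of_pos_right _ hp) (i + 1) x

/-- Every finite subset of a poset of finite width lies in a finite order retract. -/
theorem exists_finite_retract {w : ℕ} (hw : WidthLE X w) (E : Set X) (hE : E.Finite) :
    ∃ (F : Set X) (r : X → X), F.Finite ∧ E ⊆ F ∧ Monotone r ∧ (∀ x, r x ∈ F) ∧
      ∀ x ∈ F, r x = x := by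
  obtain ⟨f, hfm, hfE, hff⟩ := exists_finite_range hw E hE
  obtain ⟨n, hn, hidem⟩ := exists_idempotent_iterate f hff
  refine ⟨range f^[n], f^[n], ?_, ?_, hfm.iterate n, fun x => ⟨x, rfl⟩, ?_⟩
  · refine hff.subset ?_
    rintro _ ⟨x, rfl⟩
    obtain ⟨m, rfl⟩ : ∃ m, n = m + 1 := ⟨n - 1, by omega⟩
    rw [Function.iterate_succ_apply']
    exact ⟨_, rfl⟩
  · intro e he
    exact ⟨e, Function.iterate_fixed (hfE e he) n⟩
  · rintro _ ⟨x, rfl⟩
    exact hidem x

end Pool.Agent.Helper39.Helly
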