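import Pool.Agent.Helper39.Helly.Core

/-!
The poset of ultrafilters on a poset `X` of finite width, its completeness, and the existence of
finite order retracts of `X` containing a prescribed finite set.
-/

namespace Pool.Agent.Helper39.Helly

open Filter Set

/-- Ultrafilters on `X`, as a carrier for the order below. -/
structure UX (X : Type*) where
  /-- The underlying ultrafilter. -/
  uf : Ultrafilter X

instance UX.preorder {X : Type*} [Preorder X] : Preorder (UX X) where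
  le V W := ∀ A ∈ V.uf, {y | ∃ a ∈ A, a ≤ y} ∈ W.uf
  le_refl V A hA := mem_of_superset hA (fun a ha => ⟨a, ha, le_rfl⟩)
  le_trans U V W hUV hVW A hA := by
    refine mem_of_superset (hVW _ (hUV A hA)) ?_
    rintro z ⟨y, ⟨a, ha, hay⟩, hyz⟩
    exact ⟨a, ha, hay.trans hyz⟩

variable {X : Type*} [PartialOrder X]

theorem UX.le_def {V W : UX X} : V ≤ W ↔ ∀ A ∈ V.uf, {y | ∃ a ∈ A, a ≤ y} ∈ W.uf := Iff.rfl

theorem UX.le_iff' {V W : UX X} : V ≤ W ↔ ∀ B ∈ W.uf, {x | ∃ b ∈ B, x ≤ b} ∈ V.uf := by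
  constructor
  · intro h B hB
    by_contra hcon
    have h1 : {x | ∃ b ∈ B, x ≤ b}ᶜ ∈ V.uf := Ultrafilter.compl_mem_iff_notMem.2 hcon
    have h2 := h _ h1
    obtain ⟨y, hy1, a, ha, hay⟩ := W.uf.neBot.nonempty_of_mem (inter_mem hB h2)
    exact ha ⟨y, hy1, hay⟩
  · intro h A hA
    by_contra hcon
    have h1 : {y | ∃ a ∈ A, a ≤ y}ᶜ ∈ W.uf := Ultrafilter.compl_mem_iff_notMem.2 hcon
    have h2 := h _ h1
    obtain ⟨x, hx1, b, hb, hxb⟩ := V.uf.neBot.nonempty_of_mem (inter_mem hA h2)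
    exact hb ⟨x, hx1, hxb⟩

/-- The principal point. -/
def UX.pt {X : Type*} (x : X) : UX X := ⟨(pure x : Ultrafilter X)⟩

theorem UX.mem_pt {X : Type*} {x : X} {A : Set X} : A ∈ (UX.pt x).uf ↔ x ∈ A := Ultrafilter.mem_pure

theorem UX.pt_le_iff {x : X} {V : UX X} : UX.pt x ≤ V ↔ ∀ᶠ y in (V.uf : Filter X), x ≤ y := by
  rw [UX.le_def]
  constructor
  · intro h
    refine mem_of_superset (h {x} (UX.mem_pt.2 rfl)) ?_
    rintro y ⟨a, ha, hay⟩
    rw [Set.mem_singleton_iff.1 ha] at hay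
    exact hay
  · intro h A hA
    refine mem_of_superset h ?_
    intro y hy
    exact ⟨x, UX.mem_pt.1 hA, hy⟩

theorem UX.le_pt_iff {x : X} {V : UX X} : V ≤ UX.pt x ↔ ∀ᶠ y in (V.uf : Filter X), y ≤ x := by
  rw [UX.le_iff']
  constructor
  · intro h
    refine mem_of_superset (h {x} (UX.mem_pt.2 rfl)) ?_
    rintro y ⟨a, ha, hay⟩
    rw [Set.mem_singleton_iff.1 ha] at hay
    exact hay
  · intro h A hA
    refine mem_of_superset h ?_
    intro y hy
    exact ⟨x, UX.mem_pt.1 hA, hy⟩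

theorem UX.pt_le_pt {x y : X} : UX.pt x ≤ UX.pt y ↔ x ≤ y := by
  rw [UX.pt_le_iff]
  exact Ultrafilter.mem_pure

theorem UX.mem_bind {X ι : Type*} (U : Ultrafilter ι) (v : ι → Ultrafilter X) (A : Set X) :
    A ∈ Ultrafilter.bind U v ↔ ∀ᶠ i in (U : Filter ι), A ∈ v i := Iff.rfl

/-- Directed families of ultrafilters have least upper bounds. -/
theorem UX.exists_lub {ι : Type*} [Nonempty ι] [Preorder ι] [IsDirected ι (· ≤ ·)]
    (v : ι → UX X) (hv : ∀ i j, i ≤ j → v i ≤ v j) :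
    ∃ p : UX X, (∀ i, v i ≤ p) ∧ ∀ u : UX X, (∀ i, v i ≤ u) → p ≤ u := by
  let U : Ultrafilter ι := Ultrafilter.of atTop
  have hU : ∀ i : ι, ∀ᶠ j in (U : Filter ι), i ≤ j := fun i =>
    (Ultrafilter.of_le _) (eventually_ge_atTop i)
  refine ⟨⟨Ultrafilter.bind U fun i => (v i).uf⟩, ?_, ?_⟩
  · intro i A hA
    show _ ∈ Ultrafilter.bind U fun i => (v i).uf
    rw [UX.mem_bind]
    filter_upwards [hU i] with j hj
    exact hv i j hj A hA
  · intro u hu A hA
    have hA' : A ∈ Ultrafilter.bind U fun i => (v i).uf := hA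
    rw [UX.mem_bind] at hA'
    obtain ⟨i, hi⟩ := hA'.exists
    exact hu i A hi

/-- Codirected families of ultrafilters have greatest lower bounds. -/
theorem UX.exists_glb {ι : Type*} [Nonempty ι] [Preorder ι] [IsDirected ι (· ≤ ·)]
    (v : ι → UX X) (hv : ∀ i j, i ≤ j → v j ≤ v i) :
    ∃ p : UX X, (∀ i, p ≤ v i) ∧ ∀ u : UX X, (∀ i, u ≤ v i) → u ≤ p := by
  let U : Ultrafilter ι := Ultrafilter.of atTop
  have hU : ∀ i : ι, ∀ᶠ j in (U : Filter ι), i ≤ j := fun i =>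
    (Ultrafilter.of_le _) (eventually_ge_atTop i)
  refine ⟨⟨Ultrafilter.bind U fun i => (v i).uf⟩, ?_, ?_⟩
  · intro i
    rw [UX.le_iff']
    intro B hB
    show _ ∈ Ultrafilter.bind U fun i => (v i).uf
    rw [UX.mem_bind]
    filter_upwards [hU i] with j hj
    exact UX.le_iff'.1 (hv i j hj) B hB
  · intro u hu
    rw [UX.le_iff']
    intro B hB
    have hB' : B ∈ Ultrafilter.bind U fun i => (v i).uf := hB
    rw [UX.mem_bind] at hB'
    obtain ⟨i, hi⟩ := hB'.exists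
    exact UX.le_iff'.1 (hu i) B hi

/-- The partial order of ultrafilters up to equivalence. -/
abbrev PX (X : Type*) [PartialOrder X] := Antisymmetrization (UX X) (· ≤ ·)

/-- The chosen representative. -/
noncomputable def rep (p : PX X) : UX X := ofAntisymmetrization (· ≤ ·) p

theorem rep_le_rep {p q : PX X} : rep p ≤ rep q ↔ p ≤ q :=
  ofAntisymmetrization_le_ofAntisymmetrization_iff

/-- The class of an ultrafilter. -/
def cls (V : UX X) : PX X := toAntisymmetrization (· ≤ ·) V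

theorem cls_rep (p : PX X) : cls (rep p) = p := toAntisymmetrization_ofAntisymmetrization _ p

theorem cls_le_cls {V W : UX X} : cls V ≤ cls W ↔ V ≤ W :=
  toAntisymmetrization_le_toAntisymmetrization_iff

theorem le_cls {p : PX X} {V : UX X} : p ≤ cls V ↔ rep p ≤ V := by
  conv_lhs => rw [← cls_rep p]
  exact cls_le_cls

theorem cls_le {p : PX X} {V : UX X} : cls V ≤ p ↔ V ≤ rep p := by
  conv_lhs => rw [← cls_rep p]
  exact cls_le_cls

theorem dirComplete_PX : DirComplete (PX X) := by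
  intro D hne hdir
  have : Nonempty D := hne.to_subtype
  have : IsDirected D (· ≤ ·) := ⟨fun a b => by
    obtain ⟨z, hz, h1, h2⟩ := hdir a a.2 b b.2
    exact ⟨⟨z, hz⟩, h1, h2⟩⟩
  obtain ⟨p, hp1, hp2⟩ := UX.exists_lub (fun d : D => rep d.1)
    (fun i j hij => rep_le_rep.2 hij)
  refine ⟨cls p, ?_, ?_⟩
  · intro d hd
    exact le_cls.2 (hp1 ⟨d, hd⟩)
  · intro u hu
    exact cls_le.2 (hp2 _ fun d => rep_le_rep.2 (hu d.2))

theorem codirComplete_PX : CodirComplete (PX X) := by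
  intro D hne hdir
  have : Nonempty Dᵒᵈ := hne.to_subtype
  have : IsDirected Dᵒᵈ (· ≤ ·) := ⟨fun a b => by
    obtain ⟨z, hz, h1, h2⟩ := hdir a.1 a.2 b.1 b.2
    exact ⟨OrderDual.toDual ⟨z, hz⟩, h1, h2⟩⟩
  obtain ⟨p, hp1, hp2⟩ := UX.exists_glb (fun d : Dᵒᵈ => rep (OrderDual.ofDual d).1)
    (fun i j hij => rep_le_rep.2 hij)
  refine ⟨cls p, ?_, ?_⟩
  · intro d hd
    exact cls_le.2 (hp1 (OrderDual.toDual ⟨d, hd⟩))
  · intro u hu
    exact le_cls.2 (hp2 _ fun d => rep_le_rep.2 (hu (OrderDual.ofDual d).2))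

theorem widthLE_PX {w : ℕ} (hw : WidthLE X w) : WidthLE (PX X) w := by
  classical
  intro s hs
  have h1 : ∀ p ∈ s, ∀ q ∈ s, p ≠ q → ∃ A ∈ (rep p).uf, {y | ∃ a ∈ A, a ≤ y} ∉ (rep q).uf := by
    intro p hp q hq hpq
    have h2 : ¬ p ≤ q := hs hp hq hpq
    rw [← rep_le_rep, UX.le_def] at h2
    push Not at h2
    exact h2
  choose! A hA1 hA2 using h1
  have h3 : ∀ p ∈ s, ∀ᶠ x in ((rep p).uf : Filter X), ∀ q ∈ s, p ≠ q →
      x ∈ A p q ∧ ¬ ∃ a ∈ A q p, a ≤ x := by
    intro p hp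
    refine (Filter.eventually_all_finset s).2 ?_
    intro q hq
    by_cases hpq : p = q
    · exact Filter.Eventually.of_forall fun x h => absurd hpq h
    · have h4 : ∀ᶠ x in ((rep p).uf : Filter X), x ∈ A p q := hA1 p hp q hq hpq
      have h5 : ∀ᶠ x in ((rep p).uf : Filter X), ¬ ∃ a ∈ A q p, a ≤ x :=
        Ultrafilter.eventually_not.2 (hA2 q hq p hp (Ne.symm hpq))
      filter_upwards [h4, h5] with x hx1 hx2 _ using ⟨hx1, hx2⟩
  have h6 : ∀ p ∈ s, ∃ x : X, ∀ q ∈ s, p ≠ q → x ∈ A p q ∧ ¬ ∃ a ∈ A q p, a ≤ x :=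
    fun p hp => (h3 p hp).exists
  rcases s.eq_empty_or_nonempty with rfl | ⟨p₀, hp₀⟩
  · simp
  have : Nonempty X := (h6 p₀ hp₀).nonempty
  choose! a ha using h6
  have h7 : ∀ p ∈ s, ∀ q ∈ s, p ≠ q → ¬ a p ≤ a q := by
    intro p hp q hq hpq hle
    exact (ha q hq p hp (Ne.symm hpq)).2 ⟨a p, (ha p hp q hq hpq).1, hle⟩
  have h8 : Set.InjOn a (s : Set (PX X)) := by
    intro p hp q hq hpq
    by_contra hne
    exact h7 p hp q hq hne (le_of_eq hpq)
  have h9 := hw (s.image a) (by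
    intro x hx y hy hxy
    simp only [Finset.coe_image, Set.mem_image] at hx hy
    obtain ⟨p, hp, rfl⟩ := hx
    obtain ⟨q, hq, rfl⟩ := hy
    exact h7 p hp q hq (fun h => hxy (by rw [h])))
  rwa [Finset.card_image_of_injOn h8] at h9

/-- Finite subsets of directed sets are bounded in the set. -/
theorem exists_upper_of_finite {Y : Type*} [Preorder Y] {I : Set Y} (hne : I.Nonempty)
    (hdir : DirectedOn (· ≤ ·) I) {T : Set Y} (hT : T.Finite) (hTI : T ⊆ I) :
    ∃ b ∈ I, ∀ t ∈ T, t ≤ b := by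
  induction T, hT using Set.Finite.induction_on with
  | empty => exact ⟨_, hne.choose_spec, by simp⟩
  | insert _ _ ih =>
    rename_i a S _ _
    obtain ⟨b, hb, hbS⟩ := ih (fun x hx => hTI (Set.mem_insert_of_mem _ hx))
    obtain ⟨c, hc, h1, h2⟩ := hdir b hb a (hTI (Set.mem_insert _ _))
    refine ⟨c, hc, ?_⟩
    intro t ht
    rcases ht with rfl | ht
    · exact h2
    · exact le_trans (hbS t ht) h1

/-- Simultaneous monotone choice in finitely many directed sets. -/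
theorem approx {ρ Y : Type*} [PartialOrder ρ] [Preorder Y] [Nonempty Y] (I : ρ → Set Y)
    (Z : ρ → Set Y) (R : Finset ρ)
    (hne : ∀ v ∈ R, (I v).Nonempty) (hdir : ∀ v ∈ R, DirectedOn (· ≤ ·) (I v))
    (hmono : ∀ u ∈ R, ∀ v ∈ R, u ≤ v → I u ⊆ I v)
    (hZ : ∀ v ∈ R, (Z v).Finite) (hZI : ∀ v ∈ R, Z v ⊆ I v) :
    ∃ a : ρ → Y, (∀ v ∈ R, a v ∈ I v) ∧ (∀ v ∈ R, ∀ z ∈ Z v, z ≤ a v) ∧
      ∀ u ∈ R, ∀ v ∈ R, u ≤ v → a u ≤ a v := by
  classical
  induction hn : R.card generalizing R with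
  | zero =>
    rw [Finset.card_eq_zero] at hn
    subst hn
    exact ⟨fun _ => Classical.arbitrary Y, by simp, by simp, by simp⟩
  | succ n ih =>
    have hRne : R.Nonempty := Finset.card_pos.1 (by omega)
    obtain ⟨m, hm, hmax⟩ := R.exists_maximal hRne
    have hsub : ∀ v ∈ R.erase m, v ∈ R := fun v hv => Finset.mem_of_mem_erase hv
    obtain ⟨a, ha1, ha2, ha3⟩ := ih (R.erase m)
      (fun v hv => hne v (hsub v hv)) (fun v hv => hdir v (hsub v hv))
      (fun u hu v hv => hmono u (hsub u hu) v (hsub v hv))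
      (fun v hv => hZ v (hsub v hv)) (fun v hv => hZI v (hsub v hv))
      (by rw [Finset.card_erase_of_mem hm]; omega)
    obtain ⟨b, hb, hbT⟩ := exists_upper_of_finite (hne m hm) (hdir m hm)
      (T := Z m ∪ a '' {u | u ∈ R.erase m ∧ u ≤ m})
      ((hZ m hm).union (Set.Finite.image _ ((R.erase m).finite_toSet.subset fun u hu => hu.1)))
      (by
        rintro x (hx | ⟨u, ⟨hu, hum⟩, rfl⟩)
        · exact hZI m hm hx
        · exact hmono u (hsub u hu) m hm hum (ha1 u hu))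
    refine ⟨fun v => if v = m then b else a v, ?_, ?_, ?_⟩
    · intro v hv
      by_cases hvm : v = m
      · subst hvm; simpa using hb
      · simp only [if_neg hvm]
        exact ha1 v (Finset.mem_erase.2 ⟨hvm, hv⟩)
    · intro v hv z hz
      by_cases hvm : v = m
      · subst hvm
        simp only [if_true]
        exact hbT z (Or.inl hz)
      · simp only [if_neg hvm]
        exact ha2 v (Finset.mem_erase.2 ⟨hvm, hv⟩) z hz
    · intro u hu v hv huv
      by_cases hvm : v = m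
      · subst hvm
        by_cases hum : u = v
        · subst hum; exact le_rfl
        · simp only [if_true, if_neg hum]
          exact hbT _ (Or.inr ⟨u, ⟨Finset.mem_erase.2 ⟨hum, hu⟩, huv⟩, rfl⟩)
      · by_cases hum : u = m
        · subst hum
          exact absurd (le_antisymm (hmax hv huv) huv) hvm
        · simp only [if_neg hum, if_neg hvm]
          exact ha3 u (Finset.mem_erase.2 ⟨hum, hu⟩) v (Finset.mem_erase.2 ⟨hvm, hv⟩) huv

end Pool.Agent.Helper39.Helly
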